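import Pool.Agent.W854.HW.Stmts

/-! # HW-FLOWN: the moment form of the lower bound for the flow -/

set_option autoImplicit false

open MeasureTheory ProbabilityTheory Filter Topology Finset Set
open scoped NNReal ENNReal

noncomputable section

namespace Pool.Agent.W597.HW
open Pool.Agent.W854.HW

/-- measurability of an integral with respect to a measurable family of measures -/
theorem meas_int {Ω₁ Ω₂ : Type} [MeasurableSpace Ω₁] [MeasurableSpace Ω₂] (μ : Ω₁ → Measure ℝ)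
    (hμ : ∀ A, MeasurableSet A → Measurable fun ω => μ ω A) (hp : ∀ ω, IsProbabilityMeasure (μ ω))
    (k : Ω₂ × ℝ → ℝ≥0∞) (hk : Measurable k) :
    Measurable fun p : Ω₁ × Ω₂ => ∫⁻ y, k (p.2, y) ∂(μ p.1) := by
  have h1 : Measurable μ := Measure.measurable_of_measurable_coe μ hμ
  let κ : Kernel (Ω₁ × Ω₂) ℝ := ⟨fun p => μ p.1, h1.comp measurable_fst⟩
  have : IsMarkovKernel κ := ⟨fun p => hp p.1⟩
  have h2 : Measurable fun q : (Ω₁ × Ω₂) × ℝ => k (q.1.2, q.2) :=
    hk.comp ((measurable_snd.comp measurable_fst).prodMk measurable_snd)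
  exact h2.lintegral_kernel_prod_right' (κ := κ)

theorem meas_int_pow {Ω₁ Ω₂ : Type} [MeasurableSpace Ω₁] [MeasurableSpace Ω₂]
    (μ : Ω₁ → Measure ℝ)
    (hμ : ∀ A, MeasurableSet A → Measurable fun ω => μ ω A) (hp : ∀ ω, IsProbabilityMeasure (μ ω))
    (k : Ω₂ × ℝ → ℝ≥0∞) (hk : Measurable k) (n : ℕ) :
    Measurable fun p : Ω₁ × Ω₂ => (∫⁻ y, k (p.2, y) ∂(μ p.1)) ^ n :=
  (meas_int μ hμ hp k hk).pow_const n

theorem meas_sec {Ω₁ : Type} [MeasurableSpace Ω₁] (f : Ω₁ × ℝ → ℝ≥0∞) (hf : Measurable f)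
    (x : ℝ) : Measurable fun ω => f (ω, x) := hf.comp measurable_prodMk_right

/-- the window -/
def Bc (c : ℝ) : Set ℝ := (Icc c (c + 1))ᶜ

theorem Bc_meas (c : ℝ) : MeasurableSet (Bc c) := measurableSet_Icc.compl

theorem meas_Bc {Ω : Type} [MeasurableSpace Ω] (κ : Kernel (Ω × ℝ) ℝ) [IsMarkovKernel κ] :
    Measurable fun p : ℝ × (Ω × ℝ) => κ p.2 (Bc p.1) := by
  have h1 : MeasurableSet {q : (ℝ × (Ω × ℝ)) × ℝ | q.2 ∈ Bc q.1.1} := by
    have h2 : {q : (ℝ × (Ω × ℝ)) × ℝ | q.2 ∈ Bc q.1.1} =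
        ({q : (ℝ × (Ω × ℝ)) × ℝ | q.1.1 ≤ q.2} ∩
          {q : (ℝ × (Ω × ℝ)) × ℝ | q.2 ≤ q.1.1 + 1})ᶜ := by
      ext q
      rfl
    rw [h2]
    exact ((measurableSet_le (by fun_prop) (by fun_prop)).inter
      (measurableSet_le (by fun_prop) (by fun_prop))).compl
  have h3 := Kernel.measurable_kernel_prodMk_left
    (κ := κ.comap (fun p : ℝ × (Ω × ℝ) => p.2) measurable_snd) h1
  exact h3

theorem main (hIND : S_IND) (hPOW : S_POW) (hPT : S_POINT) : S_FLOWN := by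
  intro β ν hν Ω mΩ P hP K hK t j₀ j₁ ht hj n
  obtain ⟨u, hu⟩ : ∃ u : ℝ, u = t - 32 := ⟨_, rfl⟩
  have hu0 : 0 ≤ u := by rw [hu]; linarith
  have hut : u ≤ t := by rw [hu]; linarith
  have m1 : IsMarkovKernel (K 0 u) := hK.flow.markov 0 u hu0
  have m2 : IsMarkovKernel (K u t) := hK.flow.markov u t hut
  have m3 : IsMarkovKernel (K 0 32) := hK.flow.markov 0 32 (by norm_num)
  set const : ℝ≥0∞ := ENNReal.ofReal ((j₁ - j₀) / 4 - (12 + 64 * |β|)) with hconst
  -- the functions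
  have hA : Measurable fun p : ℝ × (Ω × ℝ) => K u t p.2 (Bc p.1) := meas_Bc _
  have hB : Measurable fun p : ℝ × (Ω × ℝ) => K 0 32 p.2 (Bc p.1) := meas_Bc _
  -- G
  set G : ℝ → (Fin n → ℝ) → ℝ≥0∞ := fun c y => ∫⁻ ω', ∏ i, K u t (ω', y i) (Bc c) ∂P with hG
  have hprod : Measurable fun p : (ℝ × (Fin n → ℝ)) × Ω => ∏ i, K u t (p.2, p.1.2 i) (Bc p.1.1) := by
    refine Finset.measurable_prod _ fun i _ => ?_
    exact hA.comp ((measurable_fst.comp measurable_fst).prodMk (measurable_snd.prodMk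
      ((measurable_pi_apply i).comp (measurable_snd.comp measurable_fst))))
  have hGm : Measurable fun p : ℝ × (Fin n → ℝ) => G p.1 p.2 := hprod.lintegral_prod_right'
  -- lower bound for G
  have hGlow : ∀ y : Fin n → ℝ, const ≤ ∫⁻ c in Icc j₀ j₁, G c y := by
    intro y
    have hstat : ∀ c, G c y = ∫⁻ ω', ∏ i, K 0 32 (ω', y i) (Bc c) ∂P := by
      intro c
      have h1 := hK.flow.stat 0 32 u (by norm_num) n y
      have e1 : (0 : ℝ) + u = u := zero_add u
      have e2 : (32 : ℝ) + u = t := by rw [hu]; ring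
      rw [e1, e2] at h1
      have hF : Measurable fun m : Fin n → Measure ℝ => ∏ i, m i (Bc c) :=
        Finset.measurable_prod _ fun i _ =>
          (Measure.measurable_coe (Bc_meas c)).comp (measurable_pi_apply i)
      have hx : ∀ κ : Kernel (Ω × ℝ) ℝ, Measurable fun (ω : Ω) (i : Fin n) => κ (ω, y i) :=
        fun κ => measurable_pi_lambda _ fun i => κ.measurable.comp (by fun_prop)
      have h2 : ∫⁻ v, ∏ i, v i (Bc c) ∂(Measure.map (fun ω i => K 0 32 (ω, y i)) P) =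
          ∫⁻ v, ∏ i, v i (Bc c) ∂(Measure.map (fun ω i => K u t (ω, y i)) P) := by rw [h1]
      rw [lintegral_map hF (hx _), lintegral_map hF (hx _)] at h2
      exact h2.symm
    simp only [hstat]
    set y' : Fin (n + 2) → ℝ := Fin.snoc (α := fun _ => ℝ) (Fin.snoc (α := fun _ => ℝ) y j₀) j₁
      with hy'
    obtain ⟨Ω', mΩ', P', hP', X, hX, hXK⟩ := hK.motion (n + 2) y'
    have ha : y' (Fin.castSucc (Fin.last n)) = j₀ := by
      rw [hy', Fin.snoc_castSucc, Fin.snoc_last]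
    have hb : y' (Fin.last (n + 1)) = j₁ := by
      rw [hy', Fin.snoc_last]
    have h1 := hPT β ν hν (n + 2) y' Ω' mΩ' P' hP' X hX (Fin.castSucc (Fin.last n))
      (Fin.last (n + 1)) (by rw [ha, hb]; exact hj)
    rw [ha, hb] at h1
    refine h1.trans (lintegral_mono fun c => ?_)
    have h2 := hXK 32 (fun _ => Bc c) fun _ => Bc_meas c
    have h3 : P' {ω | ∀ i, X 32 ω i ∉ Icc c (c + 1)} = P' {ω | ∀ i, X 32 ω i ∈ Bc c} := rfl
    rw [h3, h2]
    have e3 : (((32 : ℝ≥0) : ℝ)) = 32 := by norm_num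
    rw [e3]
    refine lintegral_mono fun ω => ?_
    simp only
    rw [Fin.prod_univ_castSucc, Fin.prod_univ_castSucc]
    have h4 : ∀ i : Fin n, y' (Fin.castSucc (Fin.castSucc i)) = y i := by
      intro i
      rw [hy', Fin.snoc_castSucc, Fin.snoc_castSucc]
    simp only [h4]
    calc _ ≤ (∏ i, K 0 32 (ω, y i) (Bc c)) * 1 * 1 := by
          gcongr
          · exact prob_le_one
          · exact prob_le_one
      _ = _ := by rw [mul_one, mul_one]
  -- Q
  set Q : ℝ → Ω → Ω → ℝ≥0∞ := fun c ω ω' => ∫⁻ y, K u t (ω', y) (Bc c) ∂(K 0 u (ω, 0)) with hQ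
  have hQm : Measurable fun p : Ω × (ℝ × Ω) => Q p.2.1 p.1 p.2.2 := by
    refine meas_int (Ω₁ := Ω) (Ω₂ := ℝ × Ω) (fun ω => K 0 u (ω, 0)) (fun A hA' => ?_)
      (fun ω => inferInstance) (fun q => K u t (q.1.2, q.2) (Bc q.1.1)) ?_
    · exact ((K 0 u).measurable_coe hA').comp (by fun_prop)
    · exact hA.comp (by fun_prop :
        Measurable fun q : (ℝ × Ω) × ℝ => ((q.1.1, (q.1.2, q.2)) : ℝ × (Ω × ℝ)))
  -- the left hand side
  have hLHS : ∀ c, ∫⁻ ω, (K 0 t (ω, 0) (Icc c (c + 1))ᶜ) ^ n ∂P =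
      ∫⁻ ω, ∫⁻ ω', Q c ω ω' ^ n ∂P ∂P := by
    intro c
    have h1 : ∫⁻ ω, (K 0 t (ω, 0) (Icc c (c + 1))ᶜ) ^ n ∂P = ∫⁻ ω, Q c ω ω ^ n ∂P := by
      refine lintegral_congr_ae ?_
      filter_upwards [hK.flow.comp 0 u t hu0 hut 0] with ω hω
      have h2 := hω (Bc c) (Bc_meas c)
      show K 0 t (ω, 0) (Bc c) ^ n = _
      rw [← h2]
    rw [h1]
    obtain ⟨F, hF1, hF2, hF3⟩ := hK.flow.indep
    have hmono : Monotone fun k : ℕ => if k = 0 then (0 : ℝ) else if k = 1 then u else t := by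
      refine monotone_nat_of_le_succ fun k => ?_
      rcases k with _ | _ | k
      · simpa using hu0
      · simpa using hut
      · simp
    have hi := hF3 2 (fun k => if k = 0 then (0 : ℝ) else if k = 1 then u else t) hmono
    have hi2 := hi.indep (i := 0) (j := 1) (by decide)
    have hi3 : Indep (F 0 u) (F u t) P := by simpa using hi2
    refine hIND Ω mΩ P hP (F 0 u) (F u t) (hF1 _ _) (hF1 _ _) hi3
      (fun p => Q c p.1 p.2 ^ n) ?_
    have hk := hF2 u t (Bc c) hut (Bc_meas c)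
    have hμ : ∀ A, MeasurableSet A → Measurable[F 0 u] fun ω => K 0 u (ω, 0) A := by
      intro A hA'
      have h2 := hF2 0 u A hu0 hA'
      exact @meas_sec Ω (F 0 u) (fun p => K 0 u p A) h2 0
    exact @meas_int_pow Ω Ω (F 0 u) (F u t) (fun ω => K 0 u (ω, 0)) hμ
      (fun ω => inferInstance) (fun q => K u t q (Bc c)) hk n
  have hjoint : Measurable fun p : ℝ × Ω => ∫⁻ ω', Q p.1 p.2 ω' ^ n ∂P := by
    have h1 : Measurable fun p : (ℝ × Ω) × Ω => Q p.1.1 p.1.2 p.2 ^ n :=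
      (hQm.comp (by fun_prop : Measurable fun p : (ℝ × Ω) × Ω => (p.1.2, (p.1.1, p.2)))).pow_const n
    exact h1.lintegral_prod_right'
  simp only [hLHS]
  rw [lintegral_lintegral_swap hjoint.aemeasurable]
  have hin : ∀ ω, const ≤ ∫⁻ c in Icc j₀ j₁, ∫⁻ ω', Q c ω ω' ^ n ∂P := by
    intro ω
    have h1 : ∀ c, ∫⁻ ω', Q c ω ω' ^ n ∂P =
        ∫⁻ y, G c y ∂(Measure.pi fun _ : Fin n => K 0 u (ω, 0)) := by
      intro c
      have h2 : ∀ ω', Q c ω ω' ^ n =
          ∫⁻ y, ∏ i, K u t (ω', y i) (Bc c) ∂(Measure.pi fun _ : Fin n => K 0 u (ω, 0)) := by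
        intro ω'
        exact hPOW (K 0 u (ω, 0)) inferInstance (fun y => K u t (ω', y) (Bc c))
          (((K u t).measurable_coe (Bc_meas c)).comp (by fun_prop)) n
      simp only [h2]
      rw [lintegral_lintegral_swap]
      refine Measurable.aemeasurable ?_
      exact hprod.comp (by fun_prop : Measurable fun p : Ω × (Fin n → ℝ) => ((c, p.2), p.1))
    simp only [h1]
    rw [lintegral_lintegral_swap hGm.aemeasurable]
    calc const = ∫⁻ _ : Fin n → ℝ, const ∂(Measure.pi fun _ : Fin n => K 0 u (ω, 0)) := by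
          rw [lintegral_const, measure_univ, mul_one]
      _ ≤ _ := lintegral_mono fun y => hGlow y
  calc const = ∫⁻ _ : Ω, const ∂P := by rw [lintegral_const, measure_univ, mul_one]
    _ ≤ _ := lintegral_mono fun ω => hin ω

end Pool.Agent.W597.HW
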